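import Mathlib

/-!
The number of solutions of `x ^ 2 = 1` in a finite 2-group `G` is divisible by `2 ^ n` as soon as
`G` has an elementary abelian quotient of order at least `2 ^ (2 * n - 1)`.
-/

namespace Pool.Agent.Helper798.TwoGroups

universe u

variable {G : Type u} [Group G]

/-- The number of solutions of `x ^ 2 = 1`. -/
noncomputable def I (G : Type u) [Group G] : ℕ := Nat.card {x : G // x ^ 2 = 1}

/-- The subgroup `{1, z}`. -/
def pair (z : G) (hz : z ^ 2 = 1) : Subgroup G where
  carrier := {1, z}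
  one_mem' := by simp
  mul_mem' := by
    rintro a b (rfl | rfl) (rfl | rfl)
    · simp
    · simp
    · simp
    · left; rw [← sq, hz]
  inv_mem' := by
    rintro a (rfl | rfl)
    · simp
    · right
      rw [Set.mem_singleton_iff, inv_eq_iff_mul_eq_one, ← sq, hz]

theorem mem_pair {z : G} {hz : z ^ 2 = 1} {x : G} : x ∈ pair z hz ↔ x = 1 ∨ x = z := Iff.rfl

/-- The subgroup `{1, a, b, a * b}`. -/
def klein (a b : G) (ha : a ^ 2 = 1) (hb : b ^ 2 = 1) (hab : a * b = b * a) : Subgroup G where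
  carrier := {1, a, b, a * b}
  one_mem' := by simp
  mul_mem' := by
    have ha' : a * a = 1 := by rw [← sq, ha]
    have hb' : b * b = 1 := by rw [← sq, hb]
    have h1 : a * (a * b) = b := by rw [← mul_assoc, ha', one_mul]
    have h2 : b * (a * b) = a := by rw [hab, ← mul_assoc, hb', one_mul]
    have h3 : a * b * a = b := by rw [hab, mul_assoc, ha', mul_one]
    have h4 : a * b * b = a := by rw [mul_assoc, hb', mul_one]
    have h5 : a * b * (a * b) = 1 := by rw [← mul_assoc, h3, hb']
    rintro x y (rfl | rfl | rfl | rfl) (rfl | rfl | rfl | rfl) <;>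
      simp [ha', hb', h1, h2, h3, h4, h5, ← hab]
  inv_mem' := by
    have ha' : a⁻¹ = a := by rw [inv_eq_iff_mul_eq_one, ← sq, ha]
    have hb' : b⁻¹ = b := by rw [inv_eq_iff_mul_eq_one, ← sq, hb]
    rintro x (rfl | rfl | rfl | rfl) <;> simp [ha', hb', ← hab]

theorem mem_klein {a b : G} {ha : a ^ 2 = 1} {hb : b ^ 2 = 1} {hab : a * b = b * a} {x : G} :
    x ∈ klein a b ha hb hab ↔ x = 1 ∨ x = a ∨ x = b ∨ x = a * b := Iff.rfl

theorem card_pair (z : G) (hz : z ^ 2 = 1) (h1 : z ≠ 1) : Nat.card (pair z hz) = 2 := by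
  have : ((pair z hz : Subgroup G) : Set G) = {1, z} := rfl
  rw [← SetLike.coe_sort_coe, this, Nat.card_coe_set_eq, Set.ncard_pair h1.symm]

theorem card_klein (a b : G) (ha : a ^ 2 = 1) (hb : b ^ 2 = 1) (hab : a * b = b * a)
    (h1 : a ≠ 1) (h2 : b ≠ 1) (h3 : a ≠ b) : Nat.card (klein a b ha hb hab) = 4 := by
  have : ((klein a b ha hb hab : Subgroup G) : Set G) = {1, a, b, a * b} := rfl
  rw [← SetLike.coe_sort_coe, this, Nat.card_coe_set_eq]
  have h4 : (1 : G) ≠ a * b := by
    intro h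
    apply h3
    have : a⁻¹ = b := inv_eq_of_mul_eq_one_right h.symm
    rw [← this, eq_comm, inv_eq_iff_mul_eq_one, ← sq, ha]
  have h5 : a ≠ a * b := fun h => h2 (by simpa using h.symm)
  have h6 : b ≠ a * b := fun h => h1 (by simpa using h.symm)
  rw [Set.ncard_insert_of_notMem, Set.ncard_insert_of_notMem, Set.ncard_pair h6]
  · simp [h3, h5]
  · simp [h1.symm, h2.symm, h4]

/-- Counting in a quotient. -/
theorem card_quot [Finite G] (N : Subgroup G) [N.Normal] :
    Nat.card N * I (G ⧸ N) = {x : G | x ^ 2 ∈ N}.ncard := by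
  have h := Nat.card_congr (QuotientGroup.preimageMkEquivSubgroupProdSet N
    {q : G ⧸ N | q ^ 2 = 1})
  rw [Nat.card_prod] at h
  rw [I]
  rw [show Nat.card {x : G ⧸ N // x ^ 2 = 1} = Nat.card ({q : G ⧸ N | q ^ 2 = 1} : Set _) from rfl,
    ← h, Nat.card_coe_set_eq]
  congr 1
  ext x
  simp only [Set.mem_preimage, Set.mem_ofPred_eq]
  rw [← QuotientGroup.mk_pow, QuotientGroup.eq_one_iff]

/-- A nontrivial normal subgroup of a finite 2-group contains a central involution. -/
theorem exists_central [Finite G] (hG : IsPGroup 2 G) (H : Subgroup G) [H.Normal] (hH : H ≠ ⊥) :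
    ∃ h ∈ H, h ≠ 1 ∧ h ^ 2 = 1 ∧ ∀ g : G, g * h * g⁻¹ = h := by
  have : Fact (Nat.Prime 2) := ⟨Nat.prime_two⟩
  have hC : IsPGroup 2 (ConjAct G) := hG.of_equiv ConjAct.toConjAct
  have hcard : 2 ∣ Nat.card H := by
    have := (hG.to_subgroup H).card_eq_or_dvd
    rcases this with h | h
    · exact absurd ((Subgroup.card_eq_one).1 h) hH
    · exact h
  have h1 : (1 : H) ∈ MulAction.fixedPoints (ConjAct G) H := by
    intro g
    apply Subtype.ext
    rw [ConjAct.Subgroup.val_conj_smul]
    simp [ConjAct.smul_def]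
  obtain ⟨b, hb, hb1⟩ := hC.exists_fixed_point_of_prime_dvd_card_of_fixed_point H hcard h1
  have hbc : ∀ g : G, g * (b : G) * g⁻¹ = b := by
    intro g
    have := congrArg Subtype.val (hb (ConjAct.toConjAct g))
    rw [ConjAct.Subgroup.val_conj_smul] at this
    simpa [ConjAct.smul_def] using this
  have hbne : (b : G) ≠ 1 := fun h => hb1 (Subtype.ext h.symm)
  have hex : ∃ k, (b : G) ^ 2 ^ k = 1 := hG b
  classical
  set k := Nat.find hex with hk
  have hk1 : (b : G) ^ 2 ^ k = 1 := Nat.find_spec hex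
  have hk0 : k ≠ 0 := by
    intro h0
    rw [h0] at hk1
    exact hbne (by simpa using hk1)
  obtain ⟨j, hj⟩ := Nat.exists_eq_succ_of_ne_zero hk0
  refine ⟨(b : G) ^ 2 ^ j, H.pow_mem b.2 _, ?_, ?_, ?_⟩
  · intro h
    have := Nat.find_min hex (m := j) (by omega)
    exact this h
  · rw [← pow_mul, ← pow_succ]
    rw [hj] at hk1
    exact hk1
  · intro g
    have : g * (b : G) ^ 2 ^ j * g⁻¹ = (g * b * g⁻¹) ^ 2 ^ j := by rw [conj_pow]
    rw [this, hbc]

/-- Index of the centraliser of an element with at most two conjugates `a, a * z`. -/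
theorem cent_index {a z : G} (hz : z ^ 2 = 1) (hz1 : z ≠ 1) (hzc : ∀ g : G, g * z = z * g)
    (h : ∀ g : G, g * a * g⁻¹ = a ∨ g * a * g⁻¹ = a * z) (g0 : G) (hg0 : g0 * a * g0⁻¹ = a * z) :
    (Subgroup.centralizer {a}).index = 2 := by
  have hzz : z * z = 1 := by rw [← sq, hz]
  have hmem : ∀ g : G, g ∈ Subgroup.centralizer {a} ↔ g * a * g⁻¹ = a := by
    intro g
    rw [Subgroup.mem_centralizer_singleton_iff, mul_inv_eq_iff_eq_mul]
  rw [Subgroup.index_eq_two_iff]
  refine ⟨g0, fun b => ?_⟩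
  rw [hmem, hmem]
  have e : b * g0 * a * (b * g0)⁻¹ = b * a * b⁻¹ * z := by
    calc b * g0 * a * (b * g0)⁻¹ = b * (g0 * a * g0⁻¹) * b⁻¹ := by group
      _ = b * (a * z) * b⁻¹ := by rw [hg0]
      _ = b * a * (z * b⁻¹) := by group
      _ = b * a * (b⁻¹ * z) := by rw [hzc]
      _ = _ := by group
  rw [e]
  rcases h b with hb | hb
  · rw [hb]
    right
    refine ⟨rfl, fun h' => hz1 (by simpa using h')⟩
  · rw [hb]
    left
    refine ⟨by rw [mul_assoc, hzz, mul_one], fun h' => hz1 (by simpa using h')⟩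

/-- A subgroup containing all squares is normal. -/
theorem normal_of_sq {K : Subgroup G} (hK : ∀ g : G, g ^ 2 ∈ K) : K.Normal := by
  constructor
  intro k hk g
  have : g * k * g⁻¹ = (g * k) ^ 2 * (k⁻¹ * g⁻¹ * k) ^ 2 * k⁻¹ := by
    simp only [sq]; group
  rw [this]
  exact mul_mem (mul_mem (hK _) (hK _)) (inv_mem hk)

theorem index_sup_pair [Finite G] {K : Subgroup G} (hK : ∀ g : G, g ^ 2 ∈ K) (z : G)
    (hz : z ^ 2 = 1) : K.index ≤ 2 * (K ⊔ pair z hz).index := by
  have := normal_of_sq hK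
  rw [← Subgroup.relIndex_mul_index (le_sup_left : K ≤ K ⊔ pair z hz)]
  refine Nat.mul_le_mul_right _ ?_
  rw [Subgroup.relIndex_sup_left]
  have h1 : K.relIndex (pair z hz) ≤ Nat.card (pair z hz) := by
    rw [Subgroup.relIndex, Subgroup.index]
    exact Nat.card_le_card_of_surjective _ (QuotientGroup.mk_surjective)
  refine h1.trans ?_
  by_cases h : z = 1
  · have : ((pair z hz : Subgroup G) : Set G) = {1} := by
      ext x; simp [mem_pair, h]
    rw [← SetLike.coe_sort_coe, this, Nat.card_coe_set_eq, Set.ncard_singleton]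
    norm_num
  · rw [card_pair z hz h]

theorem index_map_mk {K N : Subgroup G} [N.Normal] (h : N ≤ K) :
    (K.map (QuotientGroup.mk' N)).index = K.index := by
  rw [← Subgroup.index_comap_of_surjective _ (QuotientGroup.mk'_surjective N),
    Subgroup.comap_map_eq, QuotientGroup.ker_mk', sup_eq_left.2 h]

theorem sq_map_mk {K N : Subgroup G} [N.Normal] (hK : ∀ g : G, g ^ 2 ∈ K) (q : G ⧸ N) :
    q ^ 2 ∈ K.map (QuotientGroup.mk' N) := by
  obtain ⟨g, rfl⟩ := QuotientGroup.mk'_surjective N q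
  exact ⟨g ^ 2, hK g, by simp⟩

/-- If a finite 2-group has a unique central involution and an elementary abelian quotient of
order at least eight, then it has a noncentral normal four-subgroup. -/
theorem exists_normal_klein [Finite G] (hG : IsPGroup 2 G) {z : G} (hz : z ^ 2 = 1) (hz1 : z ≠ 1)
    (hzc : ∀ g : G, g * z = z * g)
    {K : Subgroup G} (hK : ∀ g : G, g ^ 2 ∈ K) (h8 : 8 ≤ K.index) :
    ∃ a : G, a ^ 2 = 1 ∧ a ≠ 1 ∧ a ≠ z ∧ ∀ g : G, g * a * g⁻¹ = a ∨ g * a * g⁻¹ = a * z := by
  by_contra hno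
  have hzz : z * z = 1 := by rw [← sq, hz]
  -- step 1
  have hpn : (pair z hz).Normal := by
    constructor
    rintro x (rfl | rfl) g
    · left; simp
    · right
      rw [Set.mem_singleton_iff, mul_inv_eq_iff_eq_mul, hzc]
  obtain ⟨y, hy2, hyc⟩ : ∃ y : G, y ^ 2 = z ∧ ∀ g : G, g * y * g⁻¹ = y ∨ g * y * g⁻¹ = y * z := by
    have hQ : IsPGroup 2 (G ⧸ pair z hz) := hG.to_quotient _
    have hne : (⊤ : Subgroup (G ⧸ pair z hz)) ≠ ⊥ := by
      intro h
      have h1 : Nat.card (G ⧸ pair z hz) = 1 := by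
        rw [← Subgroup.card_top, h, Subgroup.card_bot]
      have h2 : Nat.card G = 2 := by
        rw [← Subgroup.index_mul_card (pair z hz), Subgroup.index, h1, card_pair z hz hz1]
      have h3 : K.index ≤ Nat.card G := by
        rw [← Subgroup.index_mul_card K]
        exact Nat.le_mul_of_pos_right _ Nat.card_pos
      omega
    obtain ⟨q, -, hq1, hq2, hqc⟩ := exists_central hQ ⊤ hne
    obtain ⟨y, rfl⟩ := QuotientGroup.mk_surjective q
    have h1 : ¬ (y ∈ pair z hz) := fun h => hq1 ((QuotientGroup.eq_one_iff _).2 h)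
    have h2 : y ^ 2 ∈ pair z hz := (QuotientGroup.eq_one_iff _).1 (by simpa using hq2)
    have h3 : ∀ g : G, g * y * g⁻¹ = y ∨ g * y * g⁻¹ = y * z := by
      intro g
      have h4 : ((g * y * g⁻¹ : G) : G ⧸ pair z hz) = (y : G ⧸ pair z hz) := by
        have := hqc (g : G ⧸ pair z hz)
        simpa using this
      have h5 : y⁻¹ * (g * y * g⁻¹) ∈ pair z hz := QuotientGroup.eq.1 h4.symm
      rcases h5 with h5 | h5
      · left; exact (inv_mul_eq_one.1 h5).symm
      · right
        rw [Set.mem_singleton_iff] at h5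
        rw [← h5]; group
    refine ⟨y, ?_, h3⟩
    rcases h2 with h2 | h2
    · exfalso
      apply hno
      refine ⟨y, h2, ?_, ?_, h3⟩
      · rintro rfl; exact h1 (Or.inl rfl)
      · rintro rfl; exact h1 (Or.inr rfl)
    · exact h2
  have hyz : y * z = z * y := hzc y
  have hy4 : y ^ 4 = 1 := by
    rw [show 4 = 2 * 2 by norm_num, pow_mul, hy2, hz]
  have hyyz : y ≠ y * z := fun h => hz1 (by simpa using h.symm)
  -- step 2 : maximal cyclic normal subgroup containing y
  obtain ⟨A, ⟨hAn, hAc, hyA⟩, hmax⟩ := Set.exists_max_image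
    {A : Subgroup G | A.Normal ∧ IsCyclic A ∧ y ∈ A} (fun A => Nat.card A) (Set.toFinite _)
    ⟨Subgroup.zpowers y, by
      refine ⟨⟨?_⟩, inferInstance, Subgroup.mem_zpowers y⟩
      rintro _ ⟨k, rfl⟩ g
      have : g * y ^ k * g⁻¹ = (g * y * g⁻¹) ^ k := by rw [conj_zpow]
      show g * y ^ k * g⁻¹ ∈ _
      rw [this]
      apply Subgroup.zpow_mem
      rcases hyc g with h | h
      · rw [h]; exact Subgroup.mem_zpowers y
      · rw [h]; exact mul_mem (Subgroup.mem_zpowers y) ⟨2, by simpa using hy2⟩⟩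
  obtain ⟨α, hα⟩ := hAc.exists_generator
  have hAz : A = Subgroup.zpowers (α : G) := by
    ext x
    constructor
    · intro hx
      obtain ⟨k, hk⟩ := hα ⟨x, hx⟩
      exact ⟨k, by simpa using congrArg Subtype.val hk⟩
    · rintro ⟨k, rfl⟩
      exact A.zpow_mem α.2 k
  have hAab : ∀ β ∈ A, ∀ γ ∈ A, β * γ = γ * β := by
    intro β hβ γ hγ
    rw [hAz] at hβ hγ
    obtain ⟨k, rfl⟩ := hβ
    obtain ⟨l, rfl⟩ := hγ
    show (α : G) ^ k * (α : G) ^ l = (α : G) ^ l * (α : G) ^ k
    rw [← zpow_add, ← zpow_add, add_comm]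
  have hzA : z ∈ A := by rw [← hy2]; exact A.pow_mem hyA 2
  -- elements of order dividing four in A
  have h4 : ∀ β ∈ A, β ^ 4 = 1 → β = 1 ∨ β = y ∨ β = z ∨ β = y * z := by
    intro β hβ hβ4
    classical
    have : Fintype A := Fintype.ofFinite A
    have hle := IsCyclic.card_pow_eq_one_le (α := A) (n := 4) (by norm_num)
    by_contra hcon
    push Not at hcon
    obtain ⟨c1, c2, c3, c4⟩ := hcon
    have hsub : ({⟨1, A.one_mem⟩, ⟨y, hyA⟩, ⟨z, hzA⟩, ⟨y * z, A.mul_mem hyA hzA⟩, ⟨β, hβ⟩} : Finset A)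
        ⊆ Finset.univ.filter (fun a : A => a ^ 4 = 1) := by
      intro x hx
      simp only [Finset.mem_insert, Finset.mem_singleton] at hx
      simp only [Finset.mem_filter, Finset.mem_univ, true_and]
      have hz4 : z ^ 4 = 1 := by rw [show 4 = 2 * 2 by norm_num, pow_mul, hz, one_pow]
      rcases hx with rfl | rfl | rfl | rfl | rfl <;> apply Subtype.ext <;>
        simp only [SubmonoidClass.mk_pow, one_pow, hy4, hz4, hβ4, OneMemClass.coe_one]
      rw [Commute.mul_pow (show Commute y z from hyz), hy4, hz4, one_mul]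
    have hc := Finset.card_le_card hsub
    have hzy : y ≠ z := by
      rintro rfl
      exact hz1 (by rw [← hy2, hz])
    have hy1 : y ≠ 1 := by rintro rfl; exact hz1 (by rw [← hy2]; simp)
    have hyz1 : y * z ≠ 1 := by
      intro h
      have : z = y⁻¹ := (inv_eq_of_mul_eq_one_right h).symm
      have h2 : y ^ 2 * y = 1 := by rw [hy2, this]; simp
      have h3 : y = z := by
        have : y ^ 3 = 1 := by rw [pow_succ]; exact h2
        have : y = 1 := by
          calc y = y ^ 4 * (y ^ 3)⁻¹ := by group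
            _ = 1 := by rw [hy4, this]; simp
        exact absurd this hy1
      exact hzy h3
    have hyzz : y * z ≠ z := fun h => hy1 (by simpa using h)
    rw [Finset.card_insert_of_notMem, Finset.card_insert_of_notMem,
      Finset.card_insert_of_notMem, Finset.card_insert_of_notMem, Finset.card_singleton] at hc
    · omega
    · simp only [Finset.mem_singleton, Subtype.mk.injEq]
      exact fun h => c4 h.symm
    · simp only [Finset.mem_insert, Finset.mem_singleton, Subtype.mk.injEq, not_or]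
      exact ⟨fun h => hyzz h.symm, fun h => c3 h.symm⟩
    · simp only [Finset.mem_insert, Finset.mem_singleton, Subtype.mk.injEq, not_or]
      exact ⟨hzy, hyyz, fun h => c2 h.symm⟩
    · simp only [Finset.mem_insert, Finset.mem_singleton, Subtype.mk.injEq, not_or]
      exact ⟨fun h => hy1 h.symm, fun h => hz1 h.symm, fun h => hyz1 h.symm, fun h => c1 h.symm⟩
  have h2 : ∀ β ∈ A, β ^ 2 = 1 → β = 1 ∨ β = z := by
    intro β hβ hβ2
    have hβ4 : β ^ 4 = 1 := by rw [show 4 = 2 * 2 by norm_num, pow_mul, hβ2, one_pow]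
    rcases h4 β hβ hβ4 with h | h | h | h
    · exact Or.inl h
    · exfalso; rw [h, hy2] at hβ2; exact hz1 hβ2
    · exact Or.inr h
    · exfalso
      rw [h, Commute.mul_pow (show Commute y z from hyz), hy2, hz, mul_one] at hβ2
      exact hz1 hβ2
  -- step 3
  have hCA : Subgroup.centralizer {y} ≤ A := by
    by_contra hCA
    have hmemC : ∀ g : G, g ∈ Subgroup.centralizer {y} ↔ g * y = y * g := by
      intro g
      rw [Subgroup.mem_centralizer_singleton_iff]
    have hCn : (Subgroup.centralizer {y}).Normal := by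
      constructor
      intro c hc g
      rw [hmemC] at hc ⊢
      have key : ∀ w : G, (w = y ∨ w = y * z) → c * w = w * c := by
        rintro w (rfl | rfl)
        · exact hc
        · rw [← mul_assoc, hc, mul_assoc, hzc c, mul_assoc]
      have h3 := key (g⁻¹ * y * g) (by simpa using hyc g⁻¹)
      calc g * c * g⁻¹ * y = g * (c * (g⁻¹ * y * g)) * g⁻¹ := by group
        _ = g * ((g⁻¹ * y * g) * c) * g⁻¹ := by rw [h3]
        _ = _ := by group
    set C := Subgroup.centralizer {y} with hCdef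
    have hQ : IsPGroup 2 (G ⧸ A) := hG.to_quotient _
    have : (C.map (QuotientGroup.mk' A)).Normal :=
      hCn.map _ (QuotientGroup.mk'_surjective A)
    have hne : C.map (QuotientGroup.mk' A) ≠ ⊥ := by
      intro h
      apply hCA
      have := (Subgroup.map_eq_bot_iff _).1 h
      rwa [QuotientGroup.ker_mk'] at this
    obtain ⟨q, ⟨x, hxC, rfl⟩, hq1, hq2, hqc⟩ := exists_central hQ _ hne
    have hxA : ¬ (x ∈ A) := fun h => hq1 ((QuotientGroup.eq_one_iff _).2 h)
    have hx2 : x ^ 2 ∈ A := (QuotientGroup.eq_one_iff _).1 (by simpa using hq2)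
    have hxg : ∀ g : G, x⁻¹ * (g * x * g⁻¹) ∈ A := by
      intro g
      have h4 : ((g * x * g⁻¹ : G) : G ⧸ A) = (x : G ⧸ A) := by
        have := hqc (g : G ⧸ A)
        simpa using this
      exact QuotientGroup.eq.1 h4.symm
    have hxy : x * y = y * x := (hmemC x).1 hxC
    -- x centralises squares of A
    have hγ : ∀ β ∈ A, ∃ γ ∈ A, γ ^ 2 = 1 ∧ x * β * x⁻¹ = β * γ := by
      intro β hβ
      have hcβ : x * β * x⁻¹ ∈ A := hAn.conj_mem β hβ x
      refine ⟨β⁻¹ * (x * β * x⁻¹), A.mul_mem (A.inv_mem hβ) hcβ, ?_, by group⟩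
      set γ := β⁻¹ * (x * β * x⁻¹) with hγdef
      have hγA : γ ∈ A := A.mul_mem (A.inv_mem hβ) hcβ
      have hconj : x * γ * x⁻¹ = γ⁻¹ := by
        have e1 : x ^ 2 * β * (x ^ 2)⁻¹ = β := by
          rw [hAab _ hx2 _ hβ]; group
        have e2 : x * γ * x⁻¹ = (x * β * x⁻¹)⁻¹ * (x ^ 2 * β * (x ^ 2)⁻¹) := by
          rw [hγdef]; simp only [sq]; group
        rw [e2, e1, hγdef]; group
      have hex : ∃ k, γ ^ 2 ^ k = 1 := hG γ
      classical
      set k := Nat.find hex with hk
      have hk1 : γ ^ 2 ^ k = 1 := Nat.find_spec hex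
      rcases Nat.lt_or_ge k 2 with hlt | hge
      · have : (2 : ℕ) ^ k ∣ 2 ^ 1 := pow_dvd_pow 2 (by omega)
        obtain ⟨m, hm⟩ := this
        rw [pow_one] at hm
        rw [hm, pow_mul, hk1, one_pow]
      · exfalso
        obtain ⟨j, hj⟩ := Nat.exists_eq_add_of_le hge
        set δ := γ ^ 2 ^ j with hδ
        have hδA : δ ∈ A := A.pow_mem hγA _
        have hδ4 : δ ^ 4 = 1 := by
          rw [hδ, ← pow_mul, show 2 ^ j * 4 = 2 ^ (2 + j) by ring, ← hj]
          exact hk1
        have hδ2 : δ ^ 2 ≠ 1 := by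
          intro h
          rw [hδ, ← pow_mul, ← pow_succ] at h
          exact Nat.find_min hex (m := j + 1) (by omega) h
        have hδc : x * δ * x⁻¹ = δ := by
          rw [mul_inv_eq_iff_eq_mul]
          rcases h4 δ hδA hδ4 with h | h | h | h
          · rw [h]; simp
          · rw [h]; exact hxy
          · rw [h]; exact hzc x
          · rw [h, ← mul_assoc, hxy, mul_assoc, hzc x, mul_assoc]
        have hδi : x * δ * x⁻¹ = δ⁻¹ := by
          have : x * δ * x⁻¹ = (x * γ * x⁻¹) ^ 2 ^ j := by rw [hδ, conj_pow]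
          rw [this, hconj, inv_pow]
        apply hδ2
        rw [sq, ← eq_inv_iff_mul_eq_one, ← hδi, hδc]
    -- x ^ 2 is a square in A
    obtain ⟨k, hk⟩ : ∃ k : ℤ, (α : G) ^ k = x ^ 2 := by
      rw [hAz] at hx2
      exact hx2
    rcases Int.even_or_odd k with hev | hodd
    · obtain ⟨l, hl⟩ := hev
      set lam : G := (α : G) ^ l with hlam
      have hlamA : lam ∈ A := A.zpow_mem α.2 l
      have hx2l : x ^ 2 = lam ^ 2 := by
        rw [← hk, hl, hlam, sq, ← zpow_add]
      obtain ⟨γ, hγA, hγ2, hγe⟩ := hγ lam hlamA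
      -- t0 = x * lam⁻¹
      have ht0 : (x * lam⁻¹) ^ 2 = γ := by
        have e1 : (x * lam⁻¹) ^ 2 = (x * lam * x⁻¹)⁻¹ * x ^ 2 * lam⁻¹ := by
          simp only [sq]; group
        rw [e1, hγe, hx2l]
        have hγi : γ⁻¹ = γ := by rw [inv_eq_iff_mul_eq_one, ← sq, hγ2]
        have e2 : lam * γ = γ * lam := hAab _ hlamA _ hγA
        calc (lam * γ)⁻¹ * lam ^ 2 * lam⁻¹ = γ⁻¹ * lam⁻¹ * (lam * lam) * lam⁻¹ := by
              rw [mul_inv_rev, sq]
          _ = γ⁻¹ := by group
          _ = γ := hγi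
      obtain ⟨t, ⟨μ, hμA, htμ⟩, ht2⟩ : ∃ t : G, (∃ μ ∈ A, t = x * μ) ∧ t ^ 2 = 1 := by
        rcases h2 γ hγA hγ2 with h | h
        · exact ⟨x * lam⁻¹, ⟨lam⁻¹, A.inv_mem hlamA, rfl⟩, by rw [ht0, h]⟩
        · refine ⟨x * lam⁻¹ * y, ⟨lam⁻¹ * y, A.mul_mem (A.inv_mem hlamA) hyA, by group⟩, ?_⟩
          have hcomm : Commute (x * lam⁻¹) y := by
            show x * lam⁻¹ * y = y * (x * lam⁻¹)
            rw [mul_assoc, hAab _ (A.inv_mem hlamA) _ hyA, ← mul_assoc, hxy, mul_assoc]
          rw [hcomm.mul_pow, ht0, h, hy2, hzz]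
      have htA : ¬ (t ∈ A) := by
        intro h
        apply hxA
        have : x = t * μ⁻¹ := by rw [htμ]; group
        rw [this]
        exact A.mul_mem h (A.inv_mem hμA)
      have htt : t * t = 1 := by rw [← sq, ht2]
      have hti : t⁻¹ = t := by rw [inv_eq_iff_mul_eq_one, htt]
      apply hno
      refine ⟨t, ht2, ?_, ?_, ?_⟩
      · rintro rfl; exact htA A.one_mem
      · rintro rfl; exact htA hzA
      · intro g
        have hβA : t⁻¹ * (g * t * g⁻¹) ∈ A := by
          have e1 : t⁻¹ * (g * t * g⁻¹) = μ⁻¹ * (x⁻¹ * (g * x * g⁻¹)) * (g * μ * g⁻¹) := by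
            rw [htμ]; group
          rw [e1]
          exact A.mul_mem (A.mul_mem (A.inv_mem hμA) (hxg g)) (hAn.conj_mem μ hμA g)
        set β := t⁻¹ * (g * t * g⁻¹) with hβ
        have hgt : g * t * g⁻¹ = t * β := by rw [hβ]; group
        have hsq : (t * β) ^ 2 = 1 := by
          rw [← hgt, conj_pow, ht2]; simp
        have htβ : t * β * t⁻¹ = β⁻¹ := by
          rw [eq_inv_iff_mul_eq_one, hti, mul_assoc, ← sq, hsq]
        have htx : t * β * t⁻¹ = x * β * x⁻¹ := by
          have e3 : μ * β * μ⁻¹ = β := by rw [hAab _ hμA _ hβA]; group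
          calc t * β * t⁻¹ = x * (μ * β * μ⁻¹) * x⁻¹ := by rw [htμ]; group
            _ = _ := by rw [e3]
        obtain ⟨γ', hγ'A, hγ'2, hγ'e⟩ := hγ β hβA
        have e4 : β * β * γ' = 1 := by
          have : β * γ' = β⁻¹ := by rw [← hγ'e, ← htx, htβ]
          rw [mul_assoc, this]; group
        have e5 : β ^ 4 = 1 := by
          have e6 : β ^ 2 = γ'⁻¹ := by rw [sq, ← mul_eq_one_iff_eq_inv]; exact e4
          rw [show 4 = 2 * 2 by norm_num, pow_mul, e6, inv_pow, hγ'2, inv_one]
        have e7 : x * β * x⁻¹ = β := by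
          rw [mul_inv_eq_iff_eq_mul]
          rcases h4 β hβA e5 with h | h | h | h
          · rw [h]; simp
          · rw [h]; exact hxy
          · rw [h]; exact hzc x
          · rw [h, ← mul_assoc, hxy, mul_assoc, hzc x, mul_assoc]
        have e8 : β ^ 2 = 1 := by
          rw [sq, ← eq_inv_iff_mul_eq_one, ← htβ, htx, e7]
        rcases h2 β hβA e8 with h | h
        · left; rw [hgt, h, mul_one]
        · right; rw [hgt, h]
    · -- odd case : the cyclic group generated by x is larger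
      have hαx : (α : G) ∈ Subgroup.zpowers x := by
        obtain ⟨m, hm⟩ := hG (α : G)
        have hcop : IsCoprime k ((2 : ℤ) ^ m) := by
          apply IsCoprime.pow_right
          obtain ⟨l, hl⟩ := hodd
          exact ⟨1, -l, by rw [hl]; ring⟩
        obtain ⟨u, v, huv⟩ := hcop
        refine ⟨2 * u, ?_⟩
        show x ^ (2 * u) = (α : G)
        have e1 : x ^ (2 * u) = ((α : G) ^ k) ^ u := by
          rw [hk, ← zpow_natCast, ← zpow_mul]; norm_num
        rw [e1, ← zpow_mul]
        have e2 : k * u = 1 + (2 ^ m) * (-v) := by linarith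
        have e3 : (α : G) ^ ((2 : ℤ) ^ m) = 1 := by
          have := hm
          rw [← zpow_natCast] at this
          push_cast at this
          exact this
        rw [e2, zpow_add, zpow_mul, e3, one_zpow, mul_one, zpow_one]
      have hAx : A ≤ Subgroup.zpowers x := by
        rw [hAz, Subgroup.zpowers_le]
        exact hαx
      have hmem : Subgroup.zpowers x ∈ {A : Subgroup G | A.Normal ∧ IsCyclic A ∧ y ∈ A} := by
        refine ⟨⟨?_⟩, inferInstance, hAx hyA⟩
        rintro _ ⟨j, rfl⟩ g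
        have : g * x ^ j * g⁻¹ = (g * x * g⁻¹) ^ j := by rw [conj_zpow]
        show g * x ^ j * g⁻¹ ∈ _
        rw [this]
        apply Subgroup.zpow_mem
        have e1 : g * x * g⁻¹ = x * (x⁻¹ * (g * x * g⁻¹)) := by group
        rw [e1]
        exact mul_mem (Subgroup.mem_zpowers x) (hAx (hxg g))
      have hle := hmax _ hmem
      have heq : A = Subgroup.zpowers x := by
        apply SetLike.coe_injective
        apply Set.eq_of_subset_of_ncard_le hAx
        rw [← Nat.card_coe_set_eq, ← Nat.card_coe_set_eq]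
        exact hle
      apply hxA
      rw [heq]
      exact Subgroup.mem_zpowers x
  -- step 6
  have hC2 : (Subgroup.centralizer {y}).index ≤ 2 := by
    by_cases hall : ∀ g : G, g * y * g⁻¹ = y
    · have : Subgroup.centralizer {y} = ⊤ := by
        rw [eq_top_iff]
        intro g _
        rw [Subgroup.mem_centralizer_singleton_iff, ← mul_inv_eq_iff_eq_mul]
        exact hall g
      rw [this, Subgroup.index_top]
      norm_num
    · push Not at hall
      obtain ⟨g0, hg0⟩ := hall
      exact (cent_index hz hz1 hzc hyc g0 ((hyc g0).resolve_left hg0)).le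
  have hA2 : A.index ≤ 2 := by
    refine le_trans ?_ hC2
    exact Nat.le_of_dvd (Nat.pos_of_ne_zero (Subgroup.index_ne_zero_of_finite))
      (Subgroup.index_dvd_of_le hCA)
  have hKA : K.relIndex A ≤ 2 := by
    rw [Subgroup.relIndex, Subgroup.index]
    have hsurj : Function.Surjective
        (fun b : Bool => ((if b then α else 1 : A) : A ⧸ K.subgroupOf A)) := by
      intro q
      obtain ⟨a, rfl⟩ := QuotientGroup.mk_surjective q
      obtain ⟨k, rfl⟩ := hα a
      rcases Int.even_or_odd k with hev | hodd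
      · obtain ⟨l, hl⟩ := hev
        refine ⟨false, ?_⟩
        simp only [Bool.false_eq_true, if_false]
        rw [QuotientGroup.eq, Subgroup.mem_subgroupOf]
        have : ((1 : A)⁻¹ * α ^ k : A) = (α ^ l) ^ 2 := by
          rw [hl, inv_one, one_mul, zpow_add, sq]
        show (((1 : A)⁻¹ * α ^ k : A) : G) ∈ K
        rw [this]
        exact hK _
      · obtain ⟨l, hl⟩ := hodd
        refine ⟨true, ?_⟩
        simp only [if_true]
        rw [QuotientGroup.eq, Subgroup.mem_subgroupOf]
        have : (α⁻¹ * α ^ k : A) = (α ^ l) ^ 2 := by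
          rw [hl, sq, ← zpow_add, ← zpow_neg_one, ← zpow_add]
          congr 1; ring
        show ((α⁻¹ * α ^ k : A) : G) ∈ K
        rw [this]
        exact hK _
    have := Nat.card_le_card_of_surjective _ hsurj
    simpa using this
  have hfin : K.index ≤ 4 := by
    have h1 : K.index ≤ (K ⊓ A).index :=
      Nat.le_of_dvd (Nat.pos_of_ne_zero (Subgroup.index_ne_zero_of_finite))
        (Subgroup.index_dvd_of_le inf_le_left)
    have h2 : (K ⊓ A).index = K.relIndex A * A.index := by
      rw [← Subgroup.relIndex_mul_index (inf_le_right : K ⊓ A ≤ A), Subgroup.inf_relIndex_right]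
    rw [h2] at h1
    calc K.index ≤ K.relIndex A * A.index := h1
      _ ≤ 2 * 2 := Nat.mul_le_mul hKA hA2
  omega

omit [Group G] in
theorem ncard_or [Finite G] {P Q : G → Prop} (h : ∀ x, P x → ¬ Q x) :
    {x : G | P x ∨ Q x}.ncard = {x : G | P x}.ncard + {x : G | Q x}.ncard := by
  rw [show {x : G | P x ∨ Q x} = {x : G | P x} ∪ {x : G | Q x} from rfl]
  exact Set.ncard_union_eq (Set.disjoint_left.2 h) (Set.toFinite _) (Set.toFinite _)

theorem ncard_split [Finite G] (P Q : G → Prop) :
    {x : G | P x}.ncard = {x : G | Q x ∧ P x}.ncard + {x : G | ¬ Q x ∧ P x}.ncard := by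
  rw [← ncard_or]
  · congr 1
    ext x
    simp only [Set.mem_ofPred_eq]
    tauto
  · tauto

/-- Counting in a subgroup. -/
theorem ncard_sub (C : Subgroup G) (P : G → Prop) :
    {x : C | P (x : G)}.ncard = {x : G | x ∈ C ∧ P x}.ncard := by
  rw [← Set.ncard_image_of_injective _ (Subtype.val_injective : Function.Injective
    (Subtype.val : C → G))]
  congr 1
  ext x
  simp only [Set.mem_image, Set.mem_ofPred_eq, Subtype.exists, exists_and_right, exists_eq_right]
  constructor
  · rintro ⟨h1, h2⟩; exact ⟨h1, h2⟩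
  · rintro ⟨h1, h2⟩; exact ⟨h1, h2⟩

theorem I_eq (G : Type u) [Group G] : I G = {x : G | x ^ 2 = 1}.ncard := by
  rw [I, ← Nat.card_coe_set_eq]
  rfl

theorem main (c : ℕ) : ∀ (n : ℕ) (G : Type u) [Group G] [Finite G], Nat.card G = c → IsPGroup 2 G →
    (∃ K : Subgroup G, (∀ g : G, g ^ 2 ∈ K) ∧ 2 ^ (2 * n - 1) ≤ K.index) → 2 ^ n ∣ I G := by
  induction c using Nat.strong_induction_on with
  | _ c ih =>
  intro n G _ _ hcard hG hK
  obtain ⟨K, hK, hKi⟩ := hK
  rcases Nat.eq_zero_or_pos n with hn | hn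
  · subst hn; simp
  -- a quotient by a subgroup of order at least two is smaller
  have hsmall : ∀ (H : Type u) [Group H] [Finite H] (N : Subgroup H) [N.Normal],
      Nat.card H ≤ c → N ≠ ⊥ → Nat.card (H ⧸ N) < c := by
    intro H _ _ N _ hH hN
    have h1 : Nat.card (H ⧸ N) * Nat.card N = Nat.card H := by
      rw [← Subgroup.index_mul_card N]; rfl
    have h2 : 1 < Nat.card N := by
      rcases Nat.lt_or_ge 1 (Nat.card N) with h | h
      · exact h
      · exact absurd (Subgroup.eq_bot_of_card_le N h) hN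
    have h3 : 0 < Nat.card (H ⧸ N) := Nat.card_pos
    nlinarith
  have hKi2 : 2 ≤ K.index := by
    refine le_trans ?_ hKi
    calc 2 = 2 ^ 1 := by norm_num
      _ ≤ 2 ^ (2 * n - 1) := Nat.pow_le_pow_right (by norm_num) (by omega)
  have hnontriv : (⊤ : Subgroup G) ≠ ⊥ := by
    intro h
    have h1 : Nat.card G = 1 := by rw [← Subgroup.card_top, h, Subgroup.card_bot]
    have h3 : K.index ≤ Nat.card G := by
      rw [← Subgroup.index_mul_card K]
      exact Nat.le_mul_of_pos_right _ Nat.card_pos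
    omega
  obtain ⟨z, -, hz1, hz, hzc'⟩ := exists_central hG ⊤ hnontriv
  have hzc : ∀ g : G, g * z = z * g := fun g => by
    have := hzc' g
    rwa [mul_inv_eq_iff_eq_mul] at this
  -- pairs generated by central involutions
  have hpairN : ∀ w : G, ∀ hw : w ^ 2 = 1, (∀ g : G, g * w = w * g) → (pair w hw).Normal := by
    intro w hw hwc
    constructor
    rintro x (rfl | rfl) g
    · left; simp
    · right
      rw [Set.mem_singleton_iff, mul_inv_eq_iff_eq_mul, hwc]
  have hpairI : ∀ w : G, ∀ hw : w ^ 2 = 1, ∀ hN : (pair w hw).Normal, w ≠ 1 →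
      2 * I (G ⧸ pair w hw) = {x : G | x ^ 2 = 1}.ncard + {x : G | x ^ 2 = w}.ncard := by
    intro w hw hN hw1
    have h1 := card_quot (pair w hw)
    rw [card_pair w hw hw1] at h1
    rw [h1, ← ncard_or]
    · rfl
    · intro x h2 h3; exact hw1 (by rw [← h3, h2])
  have hpairne : ∀ w : G, ∀ hw : w ^ 2 = 1, w ≠ 1 → pair w hw ≠ ⊥ := by
    intro w hw hw1 h
    have : w ∈ pair w hw := Or.inr rfl
    rw [h, Subgroup.mem_bot] at this
    exact hw1 this
  -- case 1 : a central involution outside K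
  by_cases hcase1 : ∃ w : G, w ^ 2 = 1 ∧ (∀ g : G, g * w = w * g) ∧ w ∉ K
  · obtain ⟨w, hw, hwc, hwK⟩ := hcase1
    have hw1 : w ≠ 1 := by rintro rfl; exact hwK K.one_mem
    have := hpairN w hw hwc
    have h1 := hpairI w hw inferInstance hw1
    have h2 : {x : G | x ^ 2 = w}.ncard = 0 := by
      rw [Set.ncard_eq_zero, Set.eq_empty_iff_forall_notMem]
      intro x hx
      apply hwK
      rw [← show x ^ 2 = w from hx]
      exact hK x
    rw [h2, add_zero, ← I_eq] at h1
    rw [← h1]
    obtain ⟨m, rfl⟩ := Nat.exists_eq_succ_of_ne_zero (by omega : n ≠ 0)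
    rw [pow_succ, mul_comm]
    apply Nat.mul_dvd_mul_left
    refine ih _ (hsmall G (pair w hw) hcard.le (hpairne w hw hw1)) m _ rfl (hG.to_quotient _)
      ⟨(K ⊔ pair w hw).map (QuotientGroup.mk' _), sq_map_mk (fun g => le_sup_left (a := K) (hK g)),
        ?_⟩
    rw [index_map_mk le_sup_right]
    have h3 := index_sup_pair hK w hw
    have h4 : 2 ^ (2 * (m + 1) - 1) = 2 * 2 ^ (2 * m) := by
      rw [show 2 * (m + 1) - 1 = 2 * m + 1 by omega, pow_succ, mul_comm]
    have h5 : 2 ^ (2 * m - 1) ≤ 2 ^ (2 * m) := Nat.pow_le_pow_right (by norm_num) (by omega)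
    simp only [Nat.succ_eq_add_one] at hKi
    omega
  push Not at hcase1
  -- divisibility for quotients by normal subgroups inside K
  have hquot : ∀ (N : Subgroup G) [N.Normal], N ≠ ⊥ → N ≤ K → 2 ^ n ∣ I (G ⧸ N) := by
    intro N _ hN hNK
    refine ih _ (hsmall G N hcard.le hN) n _ rfl (hG.to_quotient _)
      ⟨K.map (QuotientGroup.mk' _), sq_map_mk hK, ?_⟩
    rw [index_map_mk hNK]
    exact hKi
  have hpairK : ∀ w : G, ∀ hw : w ^ 2 = 1, w ∈ K → pair w hw ≤ K := by
    rintro w hw hwK x (rfl | rfl)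
    · exact K.one_mem
    · exact hwK
  -- case 2a : two central involutions
  by_cases hcase2 : ∃ w : G, w ^ 2 = 1 ∧ w ≠ 1 ∧ w ≠ z ∧ (∀ g : G, g * w = w * g)
  · obtain ⟨w, hw, hw1, hwz, hwc⟩ := hcase2
    have hzw : z * w = w * z := hwc z
    have hzw2 : (z * w) ^ 2 = 1 := by rw [Commute.mul_pow hzw, hz, hw, one_mul]
    have hzwc : ∀ g : G, g * (z * w) = (z * w) * g := by
      intro g; rw [← mul_assoc, hzc, mul_assoc, hwc, mul_assoc]
    have hzw1 : z * w ≠ 1 := by
      intro h
      apply hwz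
      have : z⁻¹ = w := inv_eq_of_mul_eq_one_right h
      rw [← this, inv_eq_iff_mul_eq_one, ← sq, hz]
    have hzwz : z * w ≠ z := fun h => hw1 (by simpa using h)
    have hzww : z * w ≠ w := fun h => hz1 (by simpa using h)
    have := hpairN z hz hzc
    have := hpairN w hw hwc
    have := hpairN (z * w) hzw2 hzwc
    have hWn : (klein z w hz hw hzw).Normal := by
      constructor
      rintro x hx g
      have : g * x * g⁻¹ = x := by
        rw [mul_inv_eq_iff_eq_mul]
        rcases hx with rfl | rfl | rfl | rfl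
        · simp
        · exact hzc g
        · exact hwc g
        · exact hzwc g
      rwa [this]
    have hzK := hcase1 z hz hzc
    have hwK := hcase1 w hw hwc
    have hWK : klein z w hz hw hzw ≤ K := by
      rintro x (rfl | rfl | rfl | rfl)
      · exact K.one_mem
      · exact hzK
      · exact hwK
      · exact K.mul_mem hzK hwK
    have hWne : klein z w hz hw hzw ≠ ⊥ := by
      intro h
      have : z ∈ klein z w hz hw hzw := Or.inr (Or.inl rfl)
      rw [h, Subgroup.mem_bot] at this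
      exact hz1 this
    have e1 := hpairI z hz inferInstance hz1
    have e2 := hpairI w hw inferInstance hw1
    have e3 := hpairI (z * w) hzw2 inferInstance hzw1
    have e4 := card_quot (klein z w hz hw hzw)
    rw [card_klein z w hz hw hzw hz1 hw1 (Ne.symm hwz)] at e4
    have e5 : {x : G | x ^ 2 ∈ klein z w hz hw hzw}.ncard = {x : G | x ^ 2 = 1}.ncard +
        ({x : G | x ^ 2 = z}.ncard + ({x : G | x ^ 2 = w}.ncard +
          {x : G | x ^ 2 = z * w}.ncard)) := by
      rw [← ncard_or, ← ncard_or, ← ncard_or]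
      · rfl
      · rintro x h (h' | h' | h')
        · exact hz1 (by rw [← h', h])
        · exact hw1 (by rw [← h', h])
        · exact hzw1 (by rw [← h', h])
      · rintro x h (h' | h')
        · exact hwz (by rw [← h', h])
        · exact hzwz (by rw [← h', h])
      · rintro x h h'
        exact hzww (by rw [← h', h])
    rw [e5] at e4
    rw [← I_eq] at e1 e2 e3 e4
    have d1 := hquot (pair z hz) (hpairne z hz hz1) (hpairK z hz hzK)
    have d2 := hquot (pair w hw) (hpairne w hw hw1) (hpairK w hw hwK)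
    have d3 := hquot (pair (z * w) hzw2) (hpairne _ hzw2 hzw1)
      (hpairK _ hzw2 (K.mul_mem hzK hwK))
    have d4 := hquot (klein z w hz hw hzw) hWne hWK
    have e6 : I G + 2 * I (G ⧸ klein z w hz hw hzw) =
        I (G ⧸ pair z hz) + I (G ⧸ pair w hw) + I (G ⧸ pair (z * w) hzw2) := by omega
    have d5 : 2 ^ n ∣ I G + 2 * I (G ⧸ klein z w hz hw hzw) := by
      rw [e6]; exact dvd_add (dvd_add d1 d2) d3
    exact (Nat.dvd_add_left (Dvd.dvd.mul_left d4 2)).1 d5
  push Not at hcase2
  -- unique central involution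
  have hzN := hpairN z hz hzc
  have hzK := hcase1 z hz hzc
  have dz := hquot (pair z hz) (hpairne z hz hz1) (hpairK z hz hzK)
  have hzz : z * z = 1 := by rw [← sq, hz]
  rcases Nat.lt_or_ge 1 n with hn1 | hn1
  swap
  · -- n = 1
    have hn' : n = 1 := by omega
    subst hn'
    rw [pow_one]
    have : Fact (Nat.Prime 2) := ⟨Nat.prime_two⟩
    classical
    have := Fintype.ofFinite G
    let f : {x : G // x ^ 2 = 1} → {x : G // x ^ 2 = 1} := fun x => ⟨x.1 * z, by
      rw [Commute.mul_pow (show Commute x.1 z from hzc x.1), x.2, hz, one_mul]⟩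
    have hf : f^[2 ^ 1] = id := by
      funext x
      apply Subtype.ext
      show x.1 * z * z = x.1
      rw [mul_assoc, hzz, mul_one]
    have h1 := Equiv.Perm.card_fixedPoints_modEq hf
    have h2 : Fintype.card (Function.fixedPoints f) = 0 := by
      rw [Fintype.card_eq_zero_iff]
      refine ⟨fun x => ?_⟩
      have := congrArg Subtype.val x.2
      have h3 : x.1.1 * z = x.1.1 := this
      exact hz1 (by simpa using h3)
    rw [h2] at h1
    rw [I, Nat.card_eq_fintype_card]
    exact (Nat.modEq_zero_iff_dvd).1 h1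
  -- normal four-subgroup
  have h8 : 8 ≤ K.index := by
    refine le_trans ?_ hKi
    calc 8 = 2 ^ 3 := by norm_num
      _ ≤ 2 ^ (2 * n - 1) := Nat.pow_le_pow_right (by norm_num) (by omega)
  obtain ⟨a, ha, ha1, haz, hac⟩ := exists_normal_klein hG hz hz1 hzc hK h8
  obtain ⟨g0, hg0'⟩ := hcase2 a ha ha1 haz
  have hg0 : g0 * a * g0⁻¹ = a * z := by
    refine (hac g0).resolve_left ?_
    intro h
    exact hg0' (by rwa [mul_inv_eq_iff_eq_mul] at h)
  have haa : a * a = 1 := by rw [← sq, ha]
  have hCi := cent_index hz hz1 hzc hac g0 hg0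
  have hmemC : ∀ g : G, g ∈ Subgroup.centralizer {a} ↔ g * a = a * g := by
    intro g
    rw [Subgroup.mem_centralizer_singleton_iff]
  set C := Subgroup.centralizer {a} with hCdef
  have haC : a ∈ C := (hmemC a).2 rfl
  have hzC : z ∈ C := (hmemC z).2 (hzc a).symm
  let aC : C := ⟨a, haC⟩
  let zC : C := ⟨z, hzC⟩
  have haC2 : aC ^ 2 = 1 := Subtype.ext ha
  have hzC2 : zC ^ 2 = 1 := Subtype.ext hz
  have haC1 : aC ≠ 1 := fun h => ha1 (congrArg Subtype.val h)
  have hzC1 : zC ≠ 1 := fun h => hz1 (congrArg Subtype.val h)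
  have hazC : aC ≠ zC := fun h => haz (congrArg Subtype.val h)
  have hcomm : aC * zC = zC * aC := Subtype.ext (hzc a)
  have hNa : (pair aC haC2).Normal := by
    constructor
    rintro x (rfl | rfl) g
    · left; simp
    · right
      rw [Set.mem_singleton_iff, mul_inv_eq_iff_eq_mul]
      exact Subtype.ext ((hmemC _).1 g.2)
  have hNW : (klein aC zC haC2 hzC2 hcomm).Normal := by
    constructor
    rintro x hx g
    have : g * x * g⁻¹ = x := by
      have h1 : g * aC = aC * g := Subtype.ext ((hmemC _).1 g.2)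
      have h2 : g * zC = zC * g := Subtype.ext (hzc _)
      rw [mul_inv_eq_iff_eq_mul]
      rcases hx with rfl | rfl | rfl | rfl
      · simp
      · exact h1
      · exact h2
      · rw [← mul_assoc, h1, mul_assoc, h2, mul_assoc]
    rwa [this]
  -- counts
  set p := {x : G | ¬ (x ∈ C) ∧ x ^ 2 = 1}.ncard with hp
  have hp' : {x : G | ¬ (x ∈ C) ∧ x ^ 2 = z}.ncard = p := by
    have hnotC : ∀ x : G, ¬ (x ∈ C) → a * x = z * (x * a) := by
      intro x hx
      have h1 : x * a * x⁻¹ = a * z := by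
        refine (hac x).resolve_left ?_
        intro h
        exact hx ((hmemC x).2 (by rwa [mul_inv_eq_iff_eq_mul] at h))
      rw [mul_inv_eq_iff_eq_mul] at h1
      rw [h1, ← mul_assoc, ← mul_assoc, ← hzc, mul_assoc a z z, hzz, mul_one]
    have hsq : ∀ x : G, ¬ (x ∈ C) → (x * a) ^ 2 = z * x ^ 2 := by
      intro x hx
      calc (x * a) ^ 2 = x * (a * x) * a := by simp only [sq]; group
        _ = x * (z * (x * a)) * a := by rw [hnotC x hx]
        _ = (x * z) * x * (a * a) := by group
        _ = (z * x) * x * 1 := by rw [hzc, haa]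
        _ = z * x ^ 2 := by rw [sq]; group
    have hnC : ∀ x : G, ¬ (x ∈ C) → ¬ (x * a ∈ C) := by
      intro x hx h
      apply hx
      have := C.mul_mem h (C.inv_mem haC)
      simpa using this
    have himg : {x : G | ¬ (x ∈ C) ∧ x ^ 2 = z} =
        (fun x => x * a) '' {x : G | ¬ (x ∈ C) ∧ x ^ 2 = 1} := by
      ext x
      simp only [Set.mem_ofPred_eq, Set.mem_image]
      constructor
      · rintro ⟨h1, h2⟩
        refine ⟨x * a, ⟨hnC x h1, ?_⟩, by rw [mul_assoc, haa, mul_one]⟩
        rw [hsq x h1, h2, hzz]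
      · rintro ⟨y, ⟨h1, h2⟩, rfl⟩
        refine ⟨hnC y h1, ?_⟩
        rw [hsq y h1, h2, mul_one]
    rw [himg, Set.ncard_image_of_injective _ (mul_left_injective a)]
  have eG : I G = {x : G | x ∈ C ∧ x ^ 2 = 1}.ncard + p := by
    rw [I_eq, ncard_split (fun x => x ^ 2 = 1) (fun x => x ∈ C)]
  have eZ : {x : G | x ^ 2 = z}.ncard = {x : G | x ∈ C ∧ x ^ 2 = z}.ncard + p := by
    rw [ncard_split (fun x => x ^ 2 = z) (fun x => x ∈ C), hp']
  have eP := hpairI z hz inferInstance hz1
  rw [← I_eq, eZ] at eP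
  have hCcount : ∀ s : C, {x : C | x ^ 2 = s}.ncard = {x : G | x ∈ C ∧ x ^ 2 = (s : G)}.ncard := by
    intro s
    rw [← ncard_sub C (fun x => x ^ 2 = (s : G))]
    congr 1
    ext x
    simp only [Set.mem_ofPred_eq]
    constructor
    · intro h; rw [← h]; rfl
    · intro h; exact Subtype.ext h
  have ea : {x : G | x ∈ C ∧ x ^ 2 = a}.ncard = {x : G | x ∈ C ∧ x ^ 2 = a * z}.ncard := by
    have himg : {x : G | x ∈ C ∧ x ^ 2 = a * z} =
        (fun x => g0 * x * g0⁻¹) '' {x : G | x ∈ C ∧ x ^ 2 = a} := by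
      have hCn : C.Normal := Subgroup.normal_of_index_eq_two hCi
      ext x
      simp only [Set.mem_ofPred_eq, Set.mem_image]
      constructor
      · rintro ⟨h1, h2⟩
        refine ⟨g0⁻¹ * x * g0, ⟨?_, ?_⟩, by group⟩
        · simpa using hCn.conj_mem x h1 g0⁻¹
        · have : (g0⁻¹ * x * g0) ^ 2 = g0⁻¹ * x ^ 2 * g0 := by simp only [sq]; group
          rw [this, h2, ← hg0]; group
      · rintro ⟨y, ⟨h1, h2⟩, rfl⟩
        refine ⟨hCn.conj_mem y h1 g0, ?_⟩
        rw [conj_pow, h2, hg0]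
    rw [himg, Set.ncard_image_of_injective]
    intro x y hxy
    simpa using hxy
  have eA := card_quot (pair aC haC2)
  rw [card_pair aC haC2 haC1] at eA
  have eA' : {x : C | x ^ 2 ∈ pair aC haC2}.ncard = {x : C | x ^ 2 = 1}.ncard +
      {x : C | x ^ 2 = aC}.ncard := by
    rw [← ncard_or]
    · rfl
    · intro x h h'; exact haC1 (by rw [← h', h])
  have eW := card_quot (klein aC zC haC2 hzC2 hcomm)
  rw [card_klein aC zC haC2 hzC2 hcomm haC1 hzC1 hazC] at eW
  have hazC1 : aC * zC ≠ 1 := by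
    intro h
    apply hazC
    have : aC⁻¹ = zC := inv_eq_of_mul_eq_one_right h
    rw [← this, eq_comm, inv_eq_iff_mul_eq_one, ← sq, haC2]
  have eW' : {x : C | x ^ 2 ∈ klein aC zC haC2 hzC2 hcomm}.ncard = {x : C | x ^ 2 = 1}.ncard +
      ({x : C | x ^ 2 = aC}.ncard + ({x : C | x ^ 2 = zC}.ncard +
        {x : C | x ^ 2 = aC * zC}.ncard)) := by
    rw [← ncard_or, ← ncard_or, ← ncard_or]
    · rfl
    · rintro x h (h' | h' | h')
      · exact haC1 (by rw [← h', h])
      · exact hzC1 (by rw [← h', h])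
      · exact hazC1 (by rw [← h', h])
    · rintro x h (h' | h')
      · exact hazC (by rw [← h', h])
      · exact hzC1 (by simpa using h'.symm.trans h)
    · rintro x h h'
      exact haC1 (by simpa using h'.symm.trans h)
  rw [eA', hCcount, hCcount] at eA
  rw [eW', hCcount, hCcount, hCcount, hCcount] at eW
  have q1 : ((1 : C) : G) = 1 := rfl
  have q2 : (aC : G) = a := rfl
  have q3 : (zC : G) = z := rfl
  have q4 : ((aC * zC : C) : G) = a * z := rfl
  rw [q1, q2] at eA
  rw [q1, q2, q3, q4, ← ea] at eW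
  have efin : I G + 2 * I (C ⧸ klein aC zC haC2 hzC2 hcomm) =
      I (G ⧸ pair z hz) + 2 * I (C ⧸ pair aC haC2) := by omega
  -- divisibility
  obtain ⟨m, rfl⟩ := Nat.exists_eq_succ_of_ne_zero (by omega : n ≠ 0)
  have hCcard : Nat.card C ≤ c := by
    rw [← hcard]
    exact Nat.card_le_card_of_injective _ Subtype.val_injective
  have hCp : IsPGroup 2 C := hG.to_subgroup C
  have hK1 : ∀ g : C, g ^ 2 ∈ K.subgroupOf C := fun g => hK g
  set K' := K.subgroupOf C ⊔ pair aC haC2 with hK'
  have hK'1 : ∀ g : C, g ^ 2 ∈ K' := fun g => le_sup_left (a := K.subgroupOf C) (hK1 g)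
  have hK'2 : 2 ^ (2 * m - 1) ≤ K'.index := by
    have h1 := index_sup_pair hK1 aC haC2
    have h2 : K.index ≤ (K.subgroupOf C).index * 2 := by
      have h3 : K.index ≤ (K ⊓ C).index :=
        Nat.le_of_dvd (Nat.pos_of_ne_zero (Subgroup.index_ne_zero_of_finite))
          (Subgroup.index_dvd_of_le inf_le_left)
      have h4 : (K ⊓ C).index = K.relIndex C * C.index := by
        rw [← Subgroup.relIndex_mul_index (inf_le_right : K ⊓ C ≤ C), Subgroup.inf_relIndex_right]
      rw [h4, hCi] at h3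
      exact h3
    have h5 : 2 ^ (2 * (m + 1) - 1) = 4 * 2 ^ (2 * m - 1) := by
      rw [show 2 * (m + 1) - 1 = (2 * m - 1) + 2 by omega, pow_add, mul_comm]
      norm_num
    simp only [Nat.succ_eq_add_one] at hKi
    rw [← hK'] at h1
    omega
  have dA : 2 ^ m ∣ I (C ⧸ pair aC haC2) := by
    refine ih _ (hsmall C (pair aC haC2) hCcard ?_) m _ rfl (hCp.to_quotient _)
      ⟨K'.map (QuotientGroup.mk' _), sq_map_mk hK'1, ?_⟩
    · intro h
      have : aC ∈ pair aC haC2 := Or.inr rfl
      rw [h, Subgroup.mem_bot] at this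
      exact haC1 this
    · rw [index_map_mk le_sup_right]
      exact hK'2
  have dW : 2 ^ m ∣ I (C ⧸ klein aC zC haC2 hzC2 hcomm) := by
    refine ih _ (hsmall C (klein aC zC haC2 hzC2 hcomm) hCcard ?_) m _ rfl (hCp.to_quotient _)
      ⟨K'.map (QuotientGroup.mk' _), sq_map_mk hK'1, ?_⟩
    · intro h
      have : aC ∈ klein aC zC haC2 hzC2 hcomm := Or.inr (Or.inl rfl)
      rw [h, Subgroup.mem_bot] at this
      exact haC1 this
    · rw [index_map_mk]
      · exact hK'2
      · have ha' : aC ∈ K' := le_sup_right (a := K.subgroupOf C) (Or.inr rfl)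
        have hz' : zC ∈ K' := le_sup_left (a := K.subgroupOf C) hzK
        rintro x (rfl | rfl | rfl | rfl)
        · exact K'.one_mem
        · exact ha'
        · exact hz'
        · exact K'.mul_mem ha' hz'
  have dA' : 2 ^ (m + 1) ∣ 2 * I (C ⧸ pair aC haC2) := by
    rw [pow_succ, mul_comm]; exact Nat.mul_dvd_mul_left 2 dA
  have dW' : 2 ^ (m + 1) ∣ 2 * I (C ⧸ klein aC zC haC2 hzC2 hcomm) := by
    rw [pow_succ, mul_comm]; exact Nat.mul_dvd_mul_left 2 dW
  have d5 : 2 ^ (m + 1) ∣ I G + 2 * I (C ⧸ klein aC zC haC2 hzC2 hcomm) := by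
    rw [efin]; exact dvd_add dz dA'
  exact (Nat.dvd_add_left dW').1 d5

theorem card_sq_eq_one_le_aux (Z : Type u) [CommGroup Z] [Finite Z] :
    Nat.card {x : Z // x ^ 2 = 1} ≤ 2 ^ Group.rank Z := by
  set φ : Z →* Z := powMonoidHom 2 with hφ
  have h1 : Nat.card {x : Z // x ^ 2 = 1} = Nat.card φ.ker := rfl
  have h2 : Nat.card φ.ker * Nat.card φ.range = Nat.card Z := by
    rw [← Subgroup.index_ker, mul_comm, Subgroup.index_mul_card]
  have h3 : φ.range.index * Nat.card φ.range = Nat.card Z := Subgroup.index_mul_card _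
  have h4 : Nat.card φ.ker = φ.range.index :=
    Nat.eq_of_mul_eq_mul_right (Nat.card_pos (α := φ.range)) (h2.trans h3.symm)
  rw [h1, h4, Subgroup.index]
  have h5 : ∀ q : Z ⧸ φ.range, q ^ 2 = 1 := by
    intro q
    obtain ⟨x, rfl⟩ := QuotientGroup.mk_surjective q
    rw [← QuotientGroup.mk_pow, QuotientGroup.eq_one_iff]
    exact ⟨x, rfl⟩
  have h6 := card_dvd_exponent_pow_rank' (Z ⧸ φ.range) h5
  refine (Nat.le_of_dvd (by positivity) h6).trans ?_
  exact Nat.pow_le_pow_right (by norm_num)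
    (Group.rank_le_of_surjective (QuotientGroup.mk' φ.range) (QuotientGroup.mk'_surjective _))

theorem card_sq_eq_one_le (Z : Type u) [inst : Group Z] [Finite Z] (hc : ∀ a b : Z, a * b = b * a) :
    Nat.card {x : Z // x ^ 2 = 1} ≤ 2 ^ Group.rank Z :=
  @card_sq_eq_one_le_aux Z { inst with mul_comm := hc } _

/-- In a finite 2-group all of whose involutions are central, the subgroup generated by the
squares has index at most `4 ^ rank (center)`. -/
theorem index_le (G : Type u) [Group G] [Finite G] (hG : IsPGroup 2 G)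
    (h : ∀ g : G, g ^ 2 = 1 → g ∈ Subgroup.center G) :
    (Subgroup.closure {x : G | ∃ g : G, g ^ 2 = x}).index
      ≤ 2 ^ (2 * Group.rank (Subgroup.center G)) := by
  have : Fact (Nat.Prime 2) := ⟨Nat.prime_two⟩
  set K := Subgroup.closure {x : G | ∃ g : G, g ^ 2 = x} with hKdef
  have hK : ∀ g : G, g ^ 2 ∈ K := fun g => Subgroup.subset_closure ⟨g, rfl⟩
  obtain ⟨d, hd⟩ : ∃ d : ℕ, K.index = 2 ^ d := hG.index K
  -- number of involutions is at most 2 ^ rank
  have hI : I G ≤ 2 ^ Group.rank (Subgroup.center G) := by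
    have hc : ∀ a b : Subgroup.center G, a * b = b * a := fun a b =>
      Subtype.ext ((Subgroup.mem_center_iff.1 a.2 b).symm)
    refine le_trans ?_ (card_sq_eq_one_le (Subgroup.center G) hc)
    let f : {x : G // x ^ 2 = 1} → {x : Subgroup.center G // x ^ 2 = 1} :=
      fun x => ⟨⟨x.1, h x.1 x.2⟩, Subtype.ext x.2⟩
    refine Nat.card_le_card_of_injective f ?_
    intro x y hxy
    exact Subtype.ext (congrArg (fun w => ((w : Subgroup.center G) : G)) (congrArg Subtype.val hxy))
  set r := Group.rank (Subgroup.center G) with hr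
  have hpos : 0 < I G := by
    have : Nonempty {x : G // x ^ 2 = 1} := ⟨⟨1, by simp⟩⟩
    exact Nat.card_pos
  have h1 := main (Nat.card G) ((d + 1) / 2) G rfl hG ⟨K, hK, by
    rw [hd]
    exact Nat.pow_le_pow_right (by norm_num) (by omega)⟩
  have h2 := (Nat.le_of_dvd hpos h1).trans hI
  have h3 := (Nat.pow_le_pow_iff_right (by norm_num : 1 < 2)).1 h2
  rw [hd]
  exact Nat.pow_le_pow_right (by norm_num) (by omega)

end Pool.Agent.Helper798.TwoGroups
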